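import Pool.Agent.H390.RS.Hyp
import Pool.Agent.H390.RS.Lap

set_option autoImplicit false

open MeasureTheory Laplacian Filter Topology Set

namespace Pool.Agent.Results.MP_ad2fa1_an.NonRadial

open Pool.Agent.H390.RS Pool.Agent.R235.BD

/-- The solution. -/
noncomputable def sol (N lam : ℝ) (m : ℕ) (z : ℂ) : ℝ :=
  2 * N * Real.log ‖z‖ + (Real.log (8 * m ^ 2 * lam) - 2 * W lam m z)

lemma exp_sol (N lam : ℝ) (m : ℕ) (hm : 2 ≤ m) (hl : 0 < lam) (z : ℂ) (hz : z ≠ 0) :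
    Real.exp (sol N lam m z) =
      ‖z‖ ^ (2 * N) * (8 * m ^ 2 * lam) / (1 + lam * ‖z ^ m - 1‖ ^ 2) ^ 2 := by
  have hz' : 0 < ‖z‖ := norm_pos_iff.mpr hz
  have hm' : (0 : ℝ) < m := by exact_mod_cast (by omega : 0 < m)
  have h1 : 0 < 8 * (m : ℝ) ^ 2 * lam := by positivity
  have h2 : 0 < 1 + lam * ‖z ^ m - 1‖ ^ 2 := by positivity
  unfold sol W
  rw [Real.exp_add, Real.exp_sub, Real.exp_log h1, Real.rpow_def_of_pos hz', two_mul (Real.log _),
    Real.exp_add, Real.exp_log h2, mul_comm (2 * N)]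
  ring

/-- The bound for `e^u`. -/
lemma bound (N : ℝ) (m : ℕ) (hN : 0 ≤ N) (hNm : N < m) (lam : ℝ) (hl : 0 < lam) (hl1 : lam ≤ 1)
    (z : ℂ) (hz : z ≠ 0) :
    ‖z‖ ^ (2 * N) * (8 * m ^ 2 * lam) / (1 + lam * ‖z ^ m - 1‖ ^ 2) ^ 2 ≤
      32 * m ^ 2 * lam ^ (1 - N / m) := by
  have hm' : (0 : ℝ) < m := lt_of_le_of_lt hN hNm
  set θ : ℝ := N / m with hθ
  have hθ0 : 0 ≤ θ := by positivity
  have hθ1 : θ < 1 := by rw [hθ, div_lt_one hm']; exact hNm
  have hz' : 0 < ‖z‖ := norm_pos_iff.mpr hz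
  set y : ℝ := ‖z‖ ^ m with hy
  have hy0 : 0 < y := by positivity
  have e1 : ‖z‖ ^ (2 * N) = (y ^ 2) ^ θ := by
    rw [hy, ← Real.rpow_natCast, ← Real.rpow_natCast, ← Real.rpow_mul hz'.le,
      ← Real.rpow_mul hz'.le]
    congr 1
    rw [hθ]
    push_cast
    field_simp
  have e2 : y - 1 ≤ ‖z ^ m - 1‖ := by
    have := norm_sub_norm_le (z ^ m) 1
    rwa [norm_pow, norm_one] at this
  have hD : 0 < (1 + lam * ‖z ^ m - 1‖ ^ 2) ^ 2 := by positivity
  have hD1 : 1 ≤ (1 + lam * ‖z ^ m - 1‖ ^ 2) ^ 2 := by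
    have : 0 ≤ lam * ‖z ^ m - 1‖ ^ 2 := by positivity
    nlinarith
  rw [div_le_iff₀ hD, e1]
  have hlθ : 0 < lam ^ (1 - θ) := Real.rpow_pos_of_pos hl _
  have hlθ1 : lam ≤ lam ^ (1 - θ) := by
    have := Real.rpow_le_rpow_of_exponent_ge hl hl1 (show 1 - θ ≤ 1 by linarith)
    rwa [Real.rpow_one] at this
  rcases le_total y 2 with h | h
  · have h1 : (y ^ 2) ^ θ ≤ 4 := by
      have h2 : (y ^ 2) ^ θ ≤ (4 : ℝ) ^ θ :=
        Real.rpow_le_rpow (by positivity) (by nlinarith) hθ0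
      have h3 : (4 : ℝ) ^ θ ≤ (4 : ℝ) ^ (1 : ℝ) :=
        Real.rpow_le_rpow_of_exponent_le (by norm_num) hθ1.le
      rw [Real.rpow_one] at h3
      exact h2.trans h3
    calc (y ^ 2) ^ θ * (8 * (m : ℝ) ^ 2 * lam) ≤ 4 * (8 * (m : ℝ) ^ 2 * lam) :=
          mul_le_mul_of_nonneg_right h1 (by positivity)
      _ = 32 * (m : ℝ) ^ 2 * lam := by ring
      _ ≤ 32 * (m : ℝ) ^ 2 * lam ^ (1 - θ) :=
          mul_le_mul_of_nonneg_left hlθ1 (by positivity)
      _ ≤ 32 * (m : ℝ) ^ 2 * lam ^ (1 - θ) * (1 + lam * ‖z ^ m - 1‖ ^ 2) ^ 2 :=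
          le_mul_of_one_le_right (by positivity) hD1
  · have h1 : y / 2 ≤ ‖z ^ m - 1‖ := by linarith
    have h2 : lam * (y ^ 2 / 4) ≤ lam * ‖z ^ m - 1‖ ^ 2 := by
      apply mul_le_mul_of_nonneg_left _ hl.le
      nlinarith
    set X : ℝ := lam * (y ^ 2 / 4) with hX
    have hX0 : 0 < X := by positivity
    have h3 : X ^ θ ≤ (1 + lam * ‖z ^ m - 1‖ ^ 2) ^ 2 := by
      rcases le_total X 1 with hX1 | hX1
      · exact (Real.rpow_le_one hX0.le hX1 hθ0).trans hD1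
      · have h4 : X ^ θ ≤ X ^ (1 : ℝ) := Real.rpow_le_rpow_of_exponent_le hX1 hθ1.le
        rw [Real.rpow_one] at h4
        nlinarith
    have h4 : (y ^ 2) ^ θ = X ^ θ * (4 / lam) ^ θ := by
      rw [← Real.mul_rpow hX0.le (by positivity)]
      congr 1
      rw [hX]; field_simp
    have h5 : (4 / lam) ^ θ * lam ≤ 4 * lam ^ (1 - θ) := by
      rw [Real.div_rpow (by norm_num) hl.le, Real.rpow_sub hl, Real.rpow_one]
      have h6 : (4 : ℝ) ^ θ ≤ (4 : ℝ) ^ (1 : ℝ) :=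
        Real.rpow_le_rpow_of_exponent_le (by norm_num) hθ1.le
      rw [Real.rpow_one] at h6
      have h7 : 0 < lam ^ θ := Real.rpow_pos_of_pos hl _
      rw [div_mul_eq_mul_div, ← mul_div_assoc]
      exact div_le_div_of_nonneg_right (mul_le_mul_of_nonneg_right h6 hl.le) h7.le
    calc (y ^ 2) ^ θ * (8 * (m : ℝ) ^ 2 * lam) =
          X ^ θ * (8 * (m : ℝ) ^ 2) * ((4 / lam) ^ θ * lam) := by rw [h4]; ring
      _ ≤ X ^ θ * (8 * (m : ℝ) ^ 2) * (4 * lam ^ (1 - θ)) :=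
          mul_le_mul_of_nonneg_left h5 (by positivity)
      _ = 32 * (m : ℝ) ^ 2 * lam ^ (1 - θ) * X ^ θ := by ring
      _ ≤ 32 * (m : ℝ) ^ 2 * lam ^ (1 - θ) * (1 + lam * ‖z ^ m - 1‖ ^ 2) ^ 2 :=
          mul_le_mul_of_nonneg_left h3 (by positivity)

lemma exists_lam (N : ℝ) (m : ℕ) (hN : 0 ≤ N) (hNm : N < m) :
    ∃ lam : ℝ, 0 < lam ∧ lam ≤ 1 ∧ 32 * m ^ 2 * lam ^ (1 - N / m) ≤ 1 / 2 := by
  have hm' : (0 : ℝ) < m := lt_of_le_of_lt hN hNm
  have hθ1 : 0 < 1 - N / m := by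
    rw [sub_pos, div_lt_one hm']; exact hNm
  have h1 : Tendsto (fun lam : ℝ => 32 * (m : ℝ) ^ 2 * lam ^ (1 - N / m)) (𝓝 0) (𝓝 0) := by
    have h2 : ContinuousAt (fun lam : ℝ => 32 * (m : ℝ) ^ 2 * lam ^ (1 - N / m)) 0 :=
      continuousAt_const.mul (Real.continuousAt_rpow_const _ _ (Or.inr hθ1.le))
    have h3 := h2.tendsto
    rwa [Real.zero_rpow hθ1.ne', mul_zero] at h3
  have h2 : ∀ᶠ lam : ℝ in 𝓝[>] 0, 32 * (m : ℝ) ^ 2 * lam ^ (1 - N / m) < 1 / 2 :=
    (h1.mono_left nhdsWithin_le_nhds).eventually (gt_mem_nhds (by norm_num))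
  have h3 : ∀ᶠ lam : ℝ in 𝓝[>] 0, lam < 1 :=
    (tendsto_id.mono_left nhdsWithin_le_nhds).eventually (gt_mem_nhds (by norm_num))
  obtain ⟨lam, h4, h5, h6⟩ := (h2.and (h3.and self_mem_nhdsWithin)).exists
  exact ⟨lam, h6, h5.le, h4.le⟩

lemma rhs_eq (N k lam : ℝ) (m : ℕ) (hm : 2 ≤ m) (hNk : k + N + 1 = m) (hl : 0 < lam)
    (hb : ∀ z : ℂ, z ≠ 0 → Real.exp (sol N lam m z) ≤ 1 / 2) (z : ℂ) (hz : z ≠ 0) :
    pw k ‖z‖ * qq (Real.exp (sol N lam m z)) = 2 * Δ (W lam m) z := by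
  have hz' : 0 < ‖z‖ := norm_pos_iff.mpr hz
  rw [qq_small (hb z hz), exp_sol N lam m hm hl z hz, laplacian_W hl]
  unfold pw
  have h1 : ‖z‖ ^ (2 * k) * ‖z‖ ^ (2 * N) = ‖z‖ ^ (2 * (m - 1)) := by
    rw [← Real.rpow_add hz', ← Real.rpow_natCast]
    congr 1
    rw [Nat.cast_mul, Nat.cast_sub (by omega), ← hNk]
    push_cast; ring
  rw [← h1]
  ring

theorem result (N k : ℝ) (m : ℕ) (hN : 0 ≤ N) (hk : -1 < k) (hm : 2 ≤ m) (hNk : k + N + 1 = m) :
    ∃ q : ℝ → ℝ, Hypotheses (fun r => r ^ (2 * k)) q ∧ ∃ u : ℂ → ℝ,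
      IsSolution N (fun r => r ^ (2 * k)) q u ∧ (∀ x, x ≠ 0 → u x < 0) ∧ ¬ IsRadial u := by
  have hNm : N < m := by linarith
  obtain ⟨lam, hl, hl1, hl2⟩ := exists_lam N m hN hNm
  have hb : ∀ z : ℂ, z ≠ 0 → Real.exp (sol N lam m z) ≤ 1 / 2 := by
    intro z hz
    rw [exp_sol N lam m hm hl z hz]
    exact (bound N m hN hNm lam hl hl1 z hz).trans hl2
  have hneg : ∀ z : ℂ, z ≠ 0 → sol N lam m z < 0 := by
    intro z hz
    have h1 : Real.exp (sol N lam m z) < Real.exp 0 := by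
      rw [Real.exp_zero]; linarith [hb z hz]
    exact Real.exp_lt_exp.mp h1
  have hW : ContDiff ℝ 2 (W lam m) := contDiff_W hl m
  have hWL : Continuous (fun z => 2 * Δ (W lam m) z) := continuous_const.mul (continuous_laplacian hW)
  have hae : (fun x : ℂ => pw k ‖x‖ * qq (Real.exp (sol N lam m x))) =ᵐ[volume]
      fun z => 2 * Δ (W lam m) z := by
    have : ∀ᵐ z : ℂ, z ≠ 0 := by
      rw [ae_iff]; simp
    filter_upwards [this] with z hz
    exact rhs_eq N k lam m hm hNk hl hb z hz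
  refine ⟨qq, hypotheses k hk, sol N lam m, ⟨?_, ?_, ?_, ?_⟩, hneg, ?_⟩
  · refine LocallyIntegrable.add ?_ ?_
    · exact locInt_log0.smul (2 * N)
    · exact (continuous_const.sub (continuous_const.mul hW.continuous)).locallyIntegrable
  · intro z hz
    have hz' : z ≠ 0 := hz
    refine ContDiffAt.contDiffWithinAt ?_
    unfold sol
    refine (contDiffAt_const.mul ?_).add (contDiffAt_const.sub
      (contDiffAt_const.mul (contDiff_W hl m).contDiffAt))
    exact (contDiffAt_norm ℝ hz').log (norm_ne_zero_iff.mpr hz')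
  · exact hWL.locallyIntegrable.congr hae.symm
  · intro φ hφ hc
    have hφ2 : ContDiff ℝ 2 φ := by exact_mod_cast contDiff_infty.1 hφ 2
    have hΔc := continuous_laplacian hφ2
    have hΔs := hasCompactSupport_laplacian hφ2 hc
    have e1 : ∫ x, pw k ‖x‖ * qq (Real.exp (sol N lam m x)) * φ x =
        ∫ x, 2 * Δ (W lam m) x * φ x := by
      refine integral_congr_ae ?_
      filter_upwards [hae] with x hx
      rw [hx]
    have e2 : ∫ x, sol N lam m x * Δ φ x =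
        2 * N * (∫ x : ℂ, Real.log ‖x‖ * Δ φ x) +
          (Real.log (8 * m ^ 2 * lam) * (∫ x, Δ φ x) - 2 * ∫ x, W lam m x * Δ φ x) := by
      have i1 : Integrable (fun x : ℂ => Real.log ‖x‖ * Δ φ x) := by
        have := locInt_log0.integrable_smul_right_of_hasCompactSupport hΔc hΔs
        simpa [smul_eq_mul] using this
      have i2 : Integrable (fun x : ℂ => Δ φ x) := hΔc.integrable_of_hasCompactSupport hΔs
      have i3 : Integrable (fun x : ℂ => W lam m x * Δ φ x) :=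
        (hW.continuous.mul hΔc).integrable_of_hasCompactSupport hΔs.mul_left
      have i4 : Integrable (fun x : ℂ => Real.log (8 * m ^ 2 * lam) * Δ φ x -
          2 * (W lam m x * Δ φ x)) := (i2.const_mul _).sub (i3.const_mul _)
      rw [← integral_const_mul, ← integral_const_mul, ← integral_const_mul,
        ← integral_sub (i2.const_mul _) (i3.const_mul _), ← integral_add (i1.const_mul _) i4]
      refine integral_congr_ae (Filter.Eventually.of_forall fun x => ?_)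
      simp only [sol]
      ring
    have e3 := integral_log_laplacian hφ2 hc
    have e4 := integral_laplacian_zero hφ2 hc
    have e5 : ∫ x, W lam m x * Δ φ x = ∫ x, Δ (W lam m) x * φ x :=
      Pool.Agent.H314.CS.LL.green hW hφ2 hc
    have e6 : ∫ x, 2 * Δ (W lam m) x * φ x = 2 * ∫ x, Δ (W lam m) x * φ x := by
      rw [← integral_const_mul]
      refine integral_congr_ae (Filter.Eventually.of_forall fun x => ?_)
      simp only; ring
    have e7 : (∫ x, sol N lam m x * Δ φ x) +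
        (∫ x, pw k ‖x‖ * qq (Real.exp (sol N lam m x)) * φ x) = 4 * Real.pi * N * φ 0 := by
      rw [e1, e2, e3, e4, e5, e6]
      ring
    exact e7
  · intro hrad
    have hm0 : (m : ℂ) ≠ 0 := by
      have : (m : ℕ) ≠ 0 := by omega
      exact_mod_cast this
    set ζ : ℂ := Complex.exp (Real.pi * Complex.I / m) with hζ
    have h1 : ζ ^ m = -1 := by
      rw [hζ, ← Complex.exp_nat_mul, mul_div_cancel₀ _ hm0, Complex.exp_pi_mul_I]
    have h2 : ‖ζ‖ = 1 := by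
      have h3 : (Real.pi * Complex.I / m : ℂ) = ((Real.pi / m : ℝ) : ℂ) * Complex.I := by
        push_cast; ring
      rw [hζ, h3, Complex.norm_exp_ofReal_mul_I]
    have h3 := hrad 1 ζ one_ne_zero (by rw [h2, norm_one])
    have h4 : sol N lam m 1 = Real.log (8 * m ^ 2 * lam) := by
      simp [sol, W]
    have h5 : sol N lam m ζ = Real.log (8 * m ^ 2 * lam) - 2 * Real.log (1 + lam * 4) := by
      simp only [sol, W, h1, h2, Real.log_one, mul_zero, zero_add]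
      norm_num
    rw [h4, h5] at h3
    have h6 : 0 < Real.log (1 + lam * 4) := Real.log_pos (by linarith)
    linarith

end Pool.Agent.Results.MP_ad2fa1_an.NonRadial
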